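import Pool.Agent.TH125.Tw.Loci

/-!
# Derived invariance of the support loci `V^i(ω)`, `i ≤ 2`, through the origin

Let `X` and `Y` be smooth projective complex varieties of dimension `n` with `D(X) ≃ D(Y)`.  Rouquier's
isomorphism `F : Aut⁰(X) × Pic⁰(X) ≃ Aut⁰(Y) × Pic⁰(Y)` restricts to an isomorphism between the
unions of the components through the origin of the loci in `Pic⁰(X)` and `Pic⁰(Y)` where
some `H^q(Ω^p ⊗ α)` does not vanish (Popa–Schnell, Lombardi).  Let `S` and `T` be these sets
of line bundles (or their unitary flat elements, all of them after fixing flat metrics).  For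
`α ∈ S`, `β = F(α)` the equivalence induces an isomorphism `H^*(X, α) → H^*(Y, β)` of the cohomology
with values in the flat line bundles, which preserves the difference `p - q` of the Hodge types
and the sesquilinear Mukai pairing `∫ exp(c₁ / 2) x^∨ conj(y)` (`Transform`).

The theorem: for `i ≤ 2` and all `m` the bijection `F` maps
`V^i_m(ω_X) = {α ∈ S | h^i(ω_X ⊗ α) ≥ m}` onto `V^i_m(ω_Y)`.  For `i = 2` this is new: so
`V^2(ω_X)_0 ≃ V^2(ω_Y)_0` in all dimensions.

The proof: by the Hodge–Riemann relations for unitary flat line bundles the negative or positive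
index of the hermitian form `∫ x^∨ conj(y)` on `⨁_{p-q=n-2} H^q(Ω^p ⊗ α)` is
`2 h^{n-2,0}(α) = 2 h^{n,2}(α)`.
-/

namespace Pool.Agent.Results.MP_abca3a_ag.CodimensionTwoLoci

open Pool.Agent.TH125.Tw

/-- **Theorem.** -/
theorem result {S T : Type} {n : ℕ} (F : S ≃ T) (X : S → Twisted n) (Y : T → Twisted n)
    (Φ : ∀ α, Transform (X α) (Y (F α))) (i : ℕ) (hi : i ≤ 2) (hin : i ≤ n) (m : ℕ) :
    F '' supportLocus X i m = supportLocus Y i m :=
  loci F X Y Φ i hi hin m

end Pool.Agent.Results.MP_abca3a_ag.CodimensionTwoLoci
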